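import Pool.Agent.H158_CC.Bri

/-!
# Forcings with the condition ccc_3 do not collapse the first uncountable cardinal

The definitions used in the statement are in `Pool.Agent.H158_CC.Defs` and in the files named
there.
-/

set_option autoImplicit false

namespace Pool.Agent.Results.MP_6e04fb_lc.StrongChainCondition

open Pool.Agent.Helper672.Plain (LSet)
open Pool.Agent.H635Amen (ZF)
open Pool.Agent.H158CC (IsForcing IsCCC3 CollapsesOmegaOne)

universe u

/-- In every model `M` of ZF, no forcing `P` (with the order relation `r`) that satisfies the
condition ccc_3 collapses the first uncountable cardinal. -/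
theorem result (M : Type u) [LSet.Structure M] [ZF M] (r P : M) (hP : IsForcing r P)
    (hc : IsCCC3 r P) : ¬ CollapsesOmegaOne r P :=
  Pool.Agent.Helper672.ZFA.H158CC.not_collapses hP hc

end Pool.Agent.Results.MP_6e04fb_lc.StrongChainCondition
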